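import Mathlib

/-!
Residual order and residual rank in t.d.l.c.s.c. groups: a well-defined residual rank forces the
residual order to be antisymmetric; transitivity holds in every group.
-/

set_option autoImplicit false

open Set Topology
open scoped Pointwise Ordinal

namespace Pool.Agent.Variants.MP_4e651d_al.ResidualOrder

variable {G : Type*} [Group G] [TopologicalSpace G]

/-- `K` lies in `𝒦(G)`: `K` is a closed subgroup generated as a group by a compact subset. -/
def InK (K : Subgroup G) : Prop :=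
  IsClosed (K : Set G) ∧ ∃ S : Set G, IsCompact S ∧ Subgroup.closure S = K

/-- The discrete residual `Res_G(K)`: the intersection of all open subgroups `O` of `G` with
`kO = Ok` for every `k ∈ K`. -/
def Res (K : Subgroup G) : Subgroup G :=
  sInf {O : Subgroup G | IsOpen (O : Set G) ∧
    ∀ k ∈ K, (fun x => k * x) '' (O : Set G) = (fun x => x * k) '' (O : Set G)}

/-- The residual order: `K₁ ≼ K₂` iff `K₁ ≤ Res_G(K₂)` or `K₁ = K₂`. -/
def ResLE (K₁ K₂ : Subgroup G) : Prop :=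
  K₁ ≤ Res K₂ ∨ K₁ = K₂

/-- The strict residual order: `K₁ ≺ K₂` iff `K₁ ≼ K₂` and `K₁ ≠ K₂`. -/
def ResLT (K₁ K₂ : Subgroup G) : Prop :=
  ResLE K₁ K₂ ∧ K₁ ≠ K₂

open Classical in
/-- The residual hierarchy `𝒦_α(G)`, by transfinite recursion on the ordinal `α`:
`𝒦_0 = {1}`, `𝒦_1 = {K ∈ 𝒦(G) : Res_G(K) = 1}`, and for `α > 1` the set of `K ∈ 𝒦(G)` such
that every `L ∈ 𝒦(G)` with `L ≺ K` lies in `𝒦_β` for some `β < α`. -/
noncomputable def Hier (G : Type*) [Group G] [TopologicalSpace G] (α : Ordinal.{0}) :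
    Set (Subgroup G) :=
  if α = 0 then {⊥}
  else if α = 1 then {K | InK K ∧ Res K = ⊥}
  else {K | InK K ∧ ∀ L, InK L → ResLT L K → ∃ β : Set.Iio α, L ∈ Hier G β.1}
termination_by α
decreasing_by exact β.2

/-- The residual rank of `G` is well-defined: `𝒦(G) = ⋃_{α < ω₁} 𝒦_α(G)`. -/
def RankWellDefined (G : Type*) [Group G] [TopologicalSpace G] : Prop :=
  {K : Subgroup G | InK K} = ⋃ α ∈ Set.Iio (ω_ 1 : Ordinal.{0}), Hier G α

theorem hier_zero : Hier G 0 = {⊥} := by
  rw [Hier]; simp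

theorem hier_one : Hier G 1 = {K | InK K ∧ Res K = ⊥} := by
  rw [Hier]; simp

theorem hier_of_one_lt {α : Ordinal.{0}} (h : 1 < α) :
    Hier G α = {K | InK K ∧ ∀ L, InK L → ResLT L K → ∃ β < α, L ∈ Hier G β} := by
  have h0 : α ≠ 0 := (lt_trans zero_lt_one h).ne'
  rw [Hier, if_neg h0, if_neg h.ne']
  ext K
  simp only [mem_ofPred_eq, Subtype.exists, mem_Iio, exists_prop]

theorem le_res_trans {K₁ K₂ K₃ : Subgroup G} (h₁ : K₁ ≤ Res K₂) (h₂ : K₂ ≤ Res K₃) :
    K₁ ≤ Res K₃ := by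
  refine le_sInf ?_
  intro O hO
  have h2O : K₂ ≤ O := h₂.trans (sInf_le hO)
  refine h₁.trans (sInf_le ⟨hO.1, ?_⟩)
  intro k hk
  have hkO : k ∈ O := h2O hk
  ext y
  constructor
  · rintro ⟨x, hx, rfl⟩
    exact ⟨k * x * k⁻¹, O.mul_mem (O.mul_mem hkO hx) (O.inv_mem hkO), by simp⟩
  · rintro ⟨x, hx, rfl⟩
    exact ⟨k⁻¹ * x * k, O.mul_mem (O.mul_mem (O.inv_mem hkO) hx) hkO, by simp [mul_assoc]⟩

/-- van Dantzig: the open subgroups of a t.d.l.c. group intersect trivially. -/
theorem res_bot [IsTopologicalGroup G] [T2Space G] [LocallyCompactSpace G]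
    [TotallyDisconnectedSpace G] : Res (⊥ : Subgroup G) = ⊥ := by
  rw [eq_bot_iff]
  intro g hg
  by_contra hne
  have hne' : g ≠ 1 := by simpa using hne
  obtain ⟨C, hCc, hC1⟩ := exists_compact_mem_nhds (1 : G)
  have hU : interior C ∩ {g}ᶜ ∈ 𝓝 (1 : G) :=
    Filter.inter_mem (interior_mem_nhds.2 hC1) (isOpen_compl_singleton.mem_nhds hne'.symm)
  obtain ⟨W, hWclopen, h1W, hWsub⟩ :=
    (loc_compact_Haus_tot_disc_of_zero_dim (H := G)).mem_nhds_iff.1 hU
  have hWcl : IsClopen W := hWclopen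
  have hWc : IsCompact W :=
    hCc.of_isClosed_subset hWcl.isClosed fun x hx => interior_subset (hWsub hx).1
  obtain ⟨V, hV1, hWV⟩ := compact_open_separated_mul_right hWc hWcl.isOpen subset_rfl
  have hV' : V ∩ V⁻¹ ∈ 𝓝 (1 : G) := Filter.inter_mem hV1 (inv_mem_nhds_one G hV1)
  let O : Subgroup G := Subgroup.closure (V ∩ V⁻¹)
  have hOopen : IsOpen (O : Set G) :=
    Subgroup.isOpen_of_mem_nhds O (Filter.mem_of_superset hV' Subgroup.subset_closure)
  have key : ∀ x ∈ O, ∀ w ∈ W, w * x ∈ W ∧ w * x⁻¹ ∈ W := by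
    intro x hx
    induction hx using Subgroup.closure_induction with
    | mem x hx =>
      intro w hw
      exact ⟨hWV (Set.mul_mem_mul hw hx.1), hWV (Set.mul_mem_mul hw hx.2)⟩
    | one => intro w hw; simpa using hw
    | mul x y _ _ ihx ihy =>
      intro w hw
      refine ⟨?_, ?_⟩
      · rw [← mul_assoc]; exact (ihy _ (ihx w hw).1).1
      · rw [mul_inv_rev, ← mul_assoc]; exact (ihx _ (ihy w hw).2).2
    | inv x _ ihx =>
      intro w hw
      exact ⟨(ihx w hw).2, by rw [inv_inv]; exact (ihx w hw).1⟩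
  have hgO : g ∈ O := by
    refine (sInf_le (s := {O : Subgroup G | IsOpen (O : Set G) ∧
      ∀ k ∈ (⊥ : Subgroup G),
        (fun x => k * x) '' (O : Set G) = (fun x => x * k) '' (O : Set G)}) ⟨hOopen, ?_⟩ :
        Res (⊥ : Subgroup G) ≤ O) hg
    intro k hk
    rw [Subgroup.mem_bot] at hk
    subst hk
    simp
  have := (key g hgO 1 h1W).1
  rw [one_mul] at this
  exact (hWsub this).2 rfl

theorem no_cycle [IsTopologicalGroup G] [T2Space G] [LocallyCompactSpace G]
    [TotallyDisconnectedSpace G] (α : Ordinal.{0}) :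
    ∀ K₁ K₂ : Subgroup G, InK K₁ → InK K₂ → K₁ ∈ Hier G α → K₁ ≤ Res K₂ → K₂ ≤ Res K₁ →
      K₁ = K₂ := by
  induction α using WellFoundedLT.induction with
  | _ α ih =>
    intro K₁ K₂ hK₁ hK₂ hα h12 h21
    rcases lt_trichotomy α 1 with h | h | h
    · have h0 : α = 0 := Order.lt_one_iff.1 h
      subst h0
      rw [hier_zero, mem_singleton_iff] at hα
      subst hα
      rw [res_bot] at h21
      exact (le_bot_iff.1 h21).symm
    · subst h
      rw [hier_one] at hα
      rw [hα.2, le_bot_iff] at h21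
      subst h21
      rw [res_bot] at h12
      exact le_bot_iff.1 h12
    · by_contra hne
      rw [hier_of_one_lt h] at hα
      obtain ⟨β, hβ, hK₂β⟩ := hα.2 K₂ hK₂ ⟨Or.inl h21, fun h => hne h.symm⟩
      exact hne (ih β hβ K₂ K₁ hK₂ hK₁ hK₂β h21 h12).symm

/-- Every t.d.l.c.s.c. group with well-defined residual rank has the residual order as an
order relation (reflexive, transitive, antisymmetric) on `𝒦(G)`. -/
theorem result (G : Type*) [Group G] [TopologicalSpace G] [IsTopologicalGroup G] [T2Space G]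
    [TotallyDisconnectedSpace G] [LocallyCompactSpace G] [SecondCountableTopology G]
    (h : RankWellDefined G) :
    IsPartialOrder {K : Subgroup G // InK K} (fun K₁ K₂ => ResLE K₁.1 K₂.1) := by
  refine { refl := ?_, trans := ?_, antisymm := ?_ }
  · intro K; exact Or.inr rfl
  · rintro K₁ K₂ K₃ (h₁ | h₁) (h₂ | h₂)
    · exact Or.inl (le_res_trans h₁ h₂)
    · exact Or.inl (h₂ ▸ h₁)
    · exact Or.inl (h₁ ▸ h₂)
    · exact Or.inr (h₁.trans h₂)
  · rintro K₁ K₂ (h₁ | h₁) (h₂ | h₂)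
    · have hK₁ : K₁.1 ∈ {K : Subgroup G | InK K} := K₁.2
      rw [RankWellDefined] at h
      rw [h] at hK₁
      obtain ⟨α, -, hα⟩ := Set.mem_iUnion₂.1 hK₁
      exact Subtype.ext (no_cycle α _ _ K₁.2 K₂.2 hα h₁ h₂)
    · exact Subtype.ext h₂.symm
    · exact Subtype.ext h₁
    · exact Subtype.ext h₁

end Pool.Agent.Variants.MP_4e651d_al.ResidualOrder
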